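import Pool.Agent.Helper53_NLE.TRF

set_option autoImplicit false

open Finset

noncomputable section

namespace Pool.Agent.NE.H53

/-- LOC -/
theorem loc (hA : AncStmt) (hN : NnbStmt) : LocStmt := by
  intro N p s σ θ hT t m hm hmN
  obtain ⟨h1, h2, h3, h4, h5, h6, h7⟩ := hN N hT.two
  have hσ : ∀ i, 1 ≤ i → σ i < i := (trf hN N p s σ θ hT).1
  have hn1 : 1 ≤ nn N t := by
    have := h2 t
    omega
  have A1 : ∀ n i, i < n → anc σ n i = i := fun n i hi =>
    (hA σ 0 (fun i h1 _ => hσ i h1)).1 n i hi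
  have A3 : ∀ n i, 1 ≤ n → n ≤ i → anc σ n i = anc σ n (σ i) := fun n i hn hi =>
    (hA σ (i + 1) (fun i h1 _ => hσ i h1)).2.2.1 n i hn hi (Nat.lt_succ_self i)
  obtain ⟨B1, B2, B3, B4⟩ := hA (s t) (N t) (hT.lt t)
  refine ⟨fun i hi => A1 _ i (by omega), ?_⟩
  intro j
  induction j using Nat.strong_induction_on with
  | _ j ih =>
    intro hj
    by_cases hjm : j < m
    · rw [B1 m j hjm]
      apply A1
      unfold ix
      have := h1 t
      split_ifs with h0
      · omega
      · omega
    · have hj1 : 1 ≤ j := by omega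
      have e1 : ix (nn N t) (us t) j = nn N t + (j - 1) := by
        unfold ix
        rw [if_neg (by omega)]
      rw [e1, A3 _ _ (by omega) (by omega), hT.sg t j hj1 hj,
        ih (s t j) (hT.lt t j hj1 hj) (by have := hT.lt t j hj1 hj; omega),
        ← B3 m j hm (by omega) hj]

end Pool.Agent.NE.H53
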