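import Pool.Agent.Helper53_NLE.INS

set_option autoImplicit false

open Finset

noncomputable section

namespace Pool.Agent.NE.H53

theorem J_congr {Z : Type} [NormedAddCommGroup Z] [NormedSpace ℝ Z] (N : ℕ → ℕ)
    (L : ℕ → ℕ → Z) (t : ℕ) {a b : ℕ → ℝ} (h : ∀ i, i < nn N t → a i = b i) :
    J N L t a = J N L t b := by
  unfold J
  apply sum_congr rfl
  intro i hi
  rw [h i (mem_range.1 hi)]

theorem et_pos (t : ℕ) : 0 < et t := by
  unfold et
  positivity

theorem prod_nonneg' (t T : ℕ) : 0 ≤ ∏ i ∈ Ico t T, (1 + et i) := by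
  apply prod_nonneg
  intro i _
  have := et_pos i
  linarith

theorem prod_le_two (hE : EtpStmt) (t T : ℕ) : ∏ i ∈ Ico t T, (1 + et i) ≤ 2 := by
  have h := (hE t T).2.1
  have h2 : (1 / 2 : ℝ) ^ (t + 1) ≤ 1 := pow_le_one₀ (by norm_num) (by norm_num)
  linarith

/-- LOS -/
theorem los (hN : NnbStmt) (hC : ClcStmt) (hE : EtpStmt) : LosStmt := by
  intro X Z _ _ _ _ Ψ N p s σ θ L y C M hT hV t T b htT
  obtain ⟨h1, h2, h3, h4, h5, h6, h7⟩ := hN N hT.two
  obtain ⟨c1, c2, c3⟩ := hC N p s σ θ hT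
  have one : ∀ (q : ℕ) (c : ℕ → ℝ),
      ‖J N L q (cl N σ (nn N q) (q + 1) c)‖ ≤ (1 + et q) * ‖J N L (q + 1) c‖ := by
    intro q c
    have key := (hV.step q).lo (∑ i ∈ (range (nn N q)).erase (us q), c i • L q i)
      (mem_Bs Ψ (L q) (nn N q) (us q) _ c) (fun j => c (ix (nn N q) (us q) j))
    rw [J_split hN hT.two, J_split_t hN hT.two]
    have e1 : ∑ i ∈ (range (nn N q)).erase (us q), c i • L (q + 1) i =
        ∑ i ∈ (range (nn N q)).erase (us q), c i • L q i := by
      apply sum_congr rfl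
      intro i hi
      rw [mem_erase, mem_range] at hi
      rw [hV.keep q i hi.2 hi.1]
    have e2 : ∑ i ∈ (range (nn N q)).erase (us q), cl N σ (nn N q) (q + 1) c i • L q i =
        ∑ i ∈ (range (nn N q)).erase (us q), c i • L q i := by
      apply sum_congr rfl
      intro i hi
      rw [mem_erase, mem_range] at hi
      rw [c1 q c i hi.2, if_neg hi.1]
    rw [e1, e2, c1 q c (us q) (h1 q), if_pos rfl]
    exact key
  have gen : ∀ T, t ≤ T → ∀ b : ℕ → ℝ,
      ‖J N L t (cl N σ (nn N t) T b)‖ ≤ (∏ i ∈ Ico t T, (1 + et i)) * ‖J N L T b‖ := by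
    intro T hT'
    induction T, hT' using Nat.le_induction with
    | base =>
      intro b
      rw [J_congr N L t (c3 t b), Ico_self, prod_empty, one_mul]
    | succ T hT' ih =>
      intro b
      have hle : nn N t ≤ nn N T := h4 hT'
      have hn1 : 1 ≤ nn N t := by
        have := h2 t
        omega
      rw [J_congr N L t (fun i hi => c2 (nn N t) T (T + 1) b i hn1 hle (Nat.le_succ T) hi)]
      refine (ih _).trans ?_
      rw [prod_Ico_succ_top hT', mul_assoc]
      exact mul_le_mul_of_nonneg_left (one T b) (prod_nonneg' t T)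
  refine (gen T htT b).trans ?_
  exact mul_le_mul_of_nonneg_right (prod_le_two hE t T) (norm_nonneg _)

end Pool.Agent.NE.H53
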