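import Pool.Agent.Helper53_NLE.LOS

set_option autoImplicit false

open Finset Filter Topology

noncomputable section

namespace Pool.Agent.NE.H53

theorem cl_group (hA : AncStmt) (hN : NnbStmt) {N : ℕ → ℕ} {p : ℕ → ℕ → ℝ} {s : ℕ → ℕ → ℕ}
    {σ : ℕ → ℕ} {θ : ℕ → ℕ → ℝ} (hT : Tree N p s σ θ) (n n' T : ℕ) (b : ℕ → ℝ) (i : ℕ)
    (hn : 1 ≤ n) (hnn : n ≤ n') :
    cl N σ n T b i = ∑ k ∈ range n' with anc σ n k = i, cl N σ n' T b k := by
  have hσ : ∀ i, 1 ≤ i → σ i < i := (trf hN N p s σ θ hT).1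
  obtain ⟨A1, A2, A3, A4⟩ := hA σ (nn N T) (fun i h1 _ => hσ i h1)
  unfold cl
  rw [← sum_fiberwise_of_maps_to (s := {j ∈ range (nn N T) | anc σ n j = i})
    (t := {k ∈ range n' | anc σ n k = i}) (g := anc σ n')]
  · apply sum_congr rfl
    intro k hk
    rw [mem_filter] at hk
    rw [filter_filter]
    apply sum_congr _ (fun _ _ => rfl)
    ext j
    rw [mem_filter, mem_filter, mem_range]
    constructor
    · rintro ⟨h1, h2, h3⟩
      exact ⟨h1, h3⟩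
    · rintro ⟨h1, h3⟩
      refine ⟨h1, ?_, h3⟩
      rw [← A4 n n' j hn hnn h1, h3]
      exact hk.2
  · intro j hj
    rw [mem_filter, mem_range] at hj
    rw [mem_filter, mem_range]
    refine ⟨(A2 n' j (hn.trans hnn) hj.1).1, ?_⟩
    rw [A4 n n' j hn hnn hj.1]
    exact hj.2

/-- PRJ -/
theorem prj (hA : AncStmt) (hN : NnbStmt) (hC : ClcStmt) (hE : EtpStmt) (hS : SpsStmt)
    (hM : CmpStmt) (hY : YspStmt) : PrjStmt := by
  intro X Z _ _ _ _ Ψ N p s σ θ L y C M Y hT hV hC1 hlim n n' a hn hnn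
  obtain ⟨h1, h2, h3, h4, h5, h6, h7⟩ := hN N hT.two
  obtain ⟨c1, c2, c3⟩ := hC N p s σ θ hT
  obtain ⟨s1, s2, s3, s4⟩ := hS N p s σ θ hT
  obtain ⟨t, m, hm, hmN, hntm⟩ := h5 n hn
  have hn1 : n ≤ nn N (t + 1) := by
    rw [h3 t]
    omega
  set T := max (t + 1) n' with hTdef
  have htT : t + 1 ≤ T := le_max_left _ _
  have hn'T : n' ≤ nn N T := by
    have := h2 T
    have h := le_max_right (t + 1) n'
    omega
  have hn' : 1 ≤ n' := hn.trans hnn
  have e1 := hY X Z Ψ N p s σ θ L Y hT hlim n' T a hn' hn'T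
  have i1 := (hM X Z Ψ N p s σ θ L y C M Y hT hV hlim T (sp N σ θ n' T a)).1
  have i2 := los hN hC hE X Z Ψ N p s σ θ L y C M hT hV (t + 1) T (sp N σ θ n' T a) htT
  have i3 := ins hA hN X Z Ψ N p s σ θ L y C M hT hV t m
    (cl N σ (nn N (t + 1)) T (sp N σ θ n' T a)) hm hmN
  rw [← hntm] at i3
  have i4 := (hM X Z Ψ N p s σ θ L y C M Y hT hV hlim (t + 1)
    (sp N σ θ n (t + 1) (cl N σ n (t + 1) (cl N σ (nn N (t + 1)) T (sp N σ θ n' T a))))).2
  have e2 := hY X Z Ψ N p s σ θ L Y hT hlim n (t + 1)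
    (cl N σ n (t + 1) (cl N σ (nn N (t + 1)) T (sp N σ θ n' T a))) hn hn1
  have e3 : ∑ i ∈ range n, (∑ j ∈ range n' with anc σ n j = i, a j) • Y n i =
      ∑ i ∈ range n, cl N σ n (t + 1) (cl N σ (nn N (t + 1)) T (sp N σ θ n' T a)) i • Y n i := by
    apply sum_congr rfl
    intro i hi
    rw [mem_range] at hi
    rw [← c2 n (t + 1) T _ i hn hn1 htT hi, cl_group hA hN hT n n' T _ i hn hnn]
    congr 1
    apply sum_congr rfl
    intro k hk
    rw [mem_filter, mem_range] at hk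
    exact (s1 n' T a k hn' hn'T hk.1).symm
  rw [e3, e2, e1]
  have hC0 : 0 ≤ C := by linarith
  have j1 := i3.trans (mul_le_mul_of_nonneg_left i2 hC0)
  have j2 : ‖J N L (t + 1) (sp N σ θ n (t + 1)
      (cl N σ n (t + 1) (cl N σ (nn N (t + 1)) T (sp N σ θ n' T a))))‖ ≤
      C * (2 * (2 * ‖∑ i ∈ range (nn N T), sp N σ θ n' T a i • Y (nn N T) i‖)) := by
    refine j1.trans (mul_le_mul_of_nonneg_left ?_ hC0)
    linarith
  linarith

end Pool.Agent.NE.H53
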