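import Pool.Agent.NE.Stmts

set_option autoImplicit false

open Finset

noncomputable section

namespace Pool.Agent.NE.H53

/-- SPL -/
theorem spl : SplStmt := by
  intro M _ f n u N hu hN
  obtain ⟨k, rfl⟩ : ∃ k, N = k + 1 := ⟨N - 1, by omega⟩
  have e1 : k + 1 - 1 = k := by omega
  rw [e1, sum_range_add, sum_range_succ', ← add_sum_erase (range n) f (mem_range.2 hu)]
  have e2 : ix n u 0 = u := by simp [ix]
  have e3 : ∀ i ∈ range k, f (n + i) = f (ix n u (i + 1)) := by
    intro i _
    simp [ix]
  rw [e2, sum_congr rfl e3]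
  abel

end Pool.Agent.NE.H53
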