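import Pool.Agent.Helper53_NLE.SPL

set_option autoImplicit false

open Finset

noncomputable section

namespace Pool.Agent.NE.H53

theorem nn_zero (N : ℕ → ℕ) : nn N 0 = 1 := by simp [nn]

/-- TRF -/
theorem trf (hN : NnbStmt) : TrfStmt := by
  intro N p s σ θ hT
  obtain ⟨h1, h2, h3, h4, h5, h6, h7⟩ := hN N hT.two
  refine ⟨?_, ?_, ?_⟩
  · intro i hi
    obtain ⟨t, m, hm, hmN, rfl⟩ := h5 i hi
    rw [hT.sg t m hm hmN]
    unfold ix
    split_ifs with h0
    · have := h1 t
      omega
    · have := hT.lt t m hm hmN
      omega
  · intro t
    induction t with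
    | zero =>
      intro i hi
      rw [nn_zero] at hi
      have : i = 0 := by omega
      subst this
      rw [hT.th0]
      norm_num
    | succ t ih =>
      intro i hi
      rw [h3 t] at hi
      have h2N := hT.two t
      by_cases hin : i < nn N t
      · by_cases hu : i = us t
        · have e : ix (nn N t) (us t) 0 = i := by simp [ix, hu]
          have := hT.th1 t 0 (by omega)
          rw [e] at this
          rw [this]
          exact mul_pos (hT.pos t 0 (by omega)) (ih _ (h1 t))
        · rw [hT.th2 t i hin hu]
          exact ih i hin
      · have e : ix (nn N t) (us t) (i - nn N t + 1) = i := by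
          unfold ix
          rw [if_neg (by omega)]
          omega
        have := hT.th1 t (i - nn N t + 1) (by omega)
        rw [e] at this
        rw [this]
        exact mul_pos (hT.pos t _ (by omega)) (ih _ (h1 t))
  · intro t
    induction t with
    | zero =>
      rw [nn_zero]
      simp [hT.th0]
    | succ t ih =>
      have h2N := hT.two t
      rw [h3 t, spl ℝ (θ (t + 1)) (nn N t) (us t) (N t) (h1 t) (by omega)]
      have e1 : ∑ i ∈ (range (nn N t)).erase (us t), θ (t + 1) i =
          ∑ i ∈ (range (nn N t)).erase (us t), θ t i := by
        apply sum_congr rfl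
        intro i hi
        rw [mem_erase, mem_range] at hi
        exact hT.th2 t i hi.2 hi.1
      have e2 : ∑ j ∈ range (N t), θ (t + 1) (ix (nn N t) (us t) j) = θ t (us t) := by
        have : ∀ j ∈ range (N t), θ (t + 1) (ix (nn N t) (us t) j) = p t j * θ t (us t) := by
          intro j hj
          exact hT.th1 t j (mem_range.1 hj)
        rw [sum_congr rfl this, ← sum_mul, hT.sum t, one_mul]
      rw [e1, e2, sum_erase_add _ _ (mem_range.2 (h1 t))]
      exact ih

end Pool.Agent.NE.H53
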