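import Pool.Agent.Helper53_NLE.LOC

set_option autoImplicit false

open Finset

noncomputable section

namespace Pool.Agent.NE.H53

variable {X Z : Type} [NormedAddCommGroup X] [NormedSpace ℝ X]
  [NormedAddCommGroup Z] [NormedSpace ℝ Z]

theorem J_split (hN : NnbStmt) {N : ℕ → ℕ} (h2N : ∀ t, 2 ≤ N t) (L : ℕ → ℕ → Z) (t : ℕ)
    (a : ℕ → ℝ) : J N L (t + 1) a =
      ∑ i ∈ (range (nn N t)).erase (us t), a i • L (t + 1) i +
        ∑ j ∈ range (N t), a (ix (nn N t) (us t) j) • L (t + 1) (ix (nn N t) (us t) j) := by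
  obtain ⟨h1, h2, h3, h4, h5, h6, h7⟩ := hN N h2N
  unfold J
  rw [h3 t]
  exact spl Z (fun i => a i • L (t + 1) i) (nn N t) (us t) (N t) (h1 t)
    (le_trans (by norm_num) (h2N t))

theorem J_split_t (hN : NnbStmt) {N : ℕ → ℕ} (h2N : ∀ t, 2 ≤ N t) (L : ℕ → ℕ → Z) (t : ℕ)
    (a : ℕ → ℝ) : J N L t a =
      ∑ i ∈ (range (nn N t)).erase (us t), a i • L t i + a (us t) • L t (us t) := by
  obtain ⟨h1, h2, h3, h4, h5, h6, h7⟩ := hN N h2N
  unfold J
  exact (sum_erase_add _ _ (mem_range.2 (h1 t))).symm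

theorem mem_Bs (Ψ : X →ₗᵢ[ℝ] Z) (L : ℕ → Z) (n u : ℕ) (Q : Set X) (a : ℕ → ℝ) :
    ∑ i ∈ (range n).erase u, a i • L i ∈ Bs Ψ L n u Q := by
  apply Submodule.sum_mem
  intro i hi
  rw [mem_erase, mem_range] at hi
  apply Submodule.smul_mem
  apply Submodule.subset_span
  left
  exact ⟨i, ⟨hi.2, hi.1⟩, rfl⟩

theorem ix_inj {n u : ℕ} (hu : u < n) {j k : ℕ} (h : ix n u j = ix n u k) : j = k := by
  unfold ix at h
  split_ifs at h <;> omega

theorem ix_ne {n u i : ℕ} (hi : i < n) (hiu : i ≠ u) (k : ℕ) : ix n u k ≠ i := by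
  unfold ix
  split_ifs <;> omega

/-- the collapse at the time `nn N t + (m - 1)` of the coefficients of the stage `t + 1` -/
theorem cl_block (hA : AncStmt) (hN : NnbStmt) {N : ℕ → ℕ} {p : ℕ → ℕ → ℝ} {s : ℕ → ℕ → ℕ}
    {σ : ℕ → ℕ} {θ : ℕ → ℕ → ℝ} (hT : Tree N p s σ θ) (t m : ℕ) (hm : 1 ≤ m) (hmN : m ≤ N t)
    (c : ℕ → ℝ) (i : ℕ) : cl N σ (nn N t + (m - 1)) (t + 1) c i =
      ∑ k ∈ (range (nn N t)).erase (us t), (if k = i then c k else 0) +
        ∑ j ∈ range (N t), (if ix (nn N t) (us t) (anc (s t) m j) = i then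
          c (ix (nn N t) (us t) j) else 0) := by
  obtain ⟨h1, h2, h3, h4, h5, h6, h7⟩ := hN N hT.two
  obtain ⟨l1, l2⟩ := loc hA hN N p s σ θ hT t m hm hmN
  unfold cl
  rw [sum_filter, h3 t, spl ℝ (fun k => if anc σ (nn N t + (m - 1)) k = i then c k else 0)
    (nn N t) (us t) (N t) (h1 t) (le_trans (by norm_num) (hT.two t))]
  have e1 : ∀ k ∈ (range (nn N t)).erase (us t),
      (if anc σ (nn N t + (m - 1)) k = i then c k else 0) = if k = i then c k else 0 := by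
    intro k hk
    rw [mem_erase, mem_range] at hk
    rw [l1 k hk.2]
  have e2 : ∀ j ∈ range (N t),
      (if anc σ (nn N t + (m - 1)) (ix (nn N t) (us t) j) = i then c (ix (nn N t) (us t) j)
        else 0) = if ix (nn N t) (us t) (anc (s t) m j) = i then
          c (ix (nn N t) (us t) j) else 0 := by
    intro j hj
    rw [l2 j (mem_range.1 hj)]
  rw [sum_congr rfl e1, sum_congr rfl e2]

theorem cl_block_old (hA : AncStmt) (hN : NnbStmt) {N : ℕ → ℕ} {p : ℕ → ℕ → ℝ}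
    {s : ℕ → ℕ → ℕ} {σ : ℕ → ℕ} {θ : ℕ → ℕ → ℝ} (hT : Tree N p s σ θ) (t m : ℕ) (hm : 1 ≤ m)
    (hmN : m ≤ N t) (c : ℕ → ℝ) (i : ℕ) (hi : i < nn N t) (hiu : i ≠ us t) :
    cl N σ (nn N t + (m - 1)) (t + 1) c i = c i := by
  rw [cl_block hA hN hT t m hm hmN]
  have e2 : ∑ j ∈ range (N t), (if ix (nn N t) (us t) (anc (s t) m j) = i then
      c (ix (nn N t) (us t) j) else 0) = 0 := by
    apply sum_eq_zero
    intro j _
    rw [if_neg (ix_ne hi hiu _)]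
  rw [e2, add_zero, sum_ite_eq' , if_pos]
  rw [mem_erase, mem_range]
  exact ⟨hiu, hi⟩

theorem cl_block_new (hA : AncStmt) (hN : NnbStmt) {N : ℕ → ℕ} {p : ℕ → ℕ → ℝ}
    {s : ℕ → ℕ → ℕ} {σ : ℕ → ℕ} {θ : ℕ → ℕ → ℝ} (hT : Tree N p s σ θ) (t m : ℕ) (hm : 1 ≤ m)
    (hmN : m ≤ N t) (c : ℕ → ℝ) (k : ℕ) :
    cl N σ (nn N t + (m - 1)) (t + 1) c (ix (nn N t) (us t) (anc (s t) m k)) =
      cls (N t) (s t) m (fun j => c (ix (nn N t) (us t) j)) k := by
  obtain ⟨h1, h2, h3, h4, h5, h6, h7⟩ := hN N hT.two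
  rw [cl_block hA hN hT t m hm hmN]
  have e1 : ∑ i ∈ (range (nn N t)).erase (us t),
      (if i = ix (nn N t) (us t) (anc (s t) m k) then c i else 0) = 0 := by
    apply sum_eq_zero
    intro i hi
    rw [mem_erase, mem_range] at hi
    rw [if_neg (fun h => ix_ne hi.2 hi.1 _ h.symm)]
  rw [e1, zero_add]
  unfold cls
  rw [sum_filter]
  apply sum_congr rfl
  intro j _
  by_cases h : anc (s t) m j = anc (s t) m k
  · rw [if_pos h, if_pos (by rw [h])]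
  · rw [if_neg h, if_neg (fun h' => h (ix_inj (h1 t) h'))]

theorem sp_block_old (hA : AncStmt) (hN : NnbStmt) {N : ℕ → ℕ} {p : ℕ → ℕ → ℝ}
    {s : ℕ → ℕ → ℕ} {σ : ℕ → ℕ} {θ : ℕ → ℕ → ℝ} (hT : Tree N p s σ θ) (t m : ℕ) (hm : 1 ≤ m)
    (hmN : m ≤ N t) (a : ℕ → ℝ) (i : ℕ) (hi : i < nn N t) (hiu : i ≠ us t) :
    sp N σ θ (nn N t + (m - 1)) (t + 1) a i = a i := by
  obtain ⟨h1, h2, h3, h4, h5, h6, h7⟩ := hN N hT.two
  obtain ⟨l1, l2⟩ := loc hA hN N p s σ θ hT t m hm hmN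
  have hpos := (trf hN N p s σ θ hT).2.1
  have hle : nn N t ≤ nn N (t + 1) := h4 (Nat.le_succ t)
  unfold sp ms
  rw [l1 i hi, cl_block_old hA hN hT t m hm hmN _ i hi hiu,
    div_self (hpos (t + 1) i (lt_of_lt_of_le hi hle)).ne', one_mul]

theorem cls_smul (N : ℕ) (s : ℕ → ℕ) (m : ℕ) (a : ℕ → ℝ) (x : ℝ) (j : ℕ) :
    cls N s m (fun k => a k * x) j = cls N s m a j * x := by
  unfold cls
  rw [sum_mul]

theorem sp_block_new (hA : AncStmt) (hN : NnbStmt) {N : ℕ → ℕ} {p : ℕ → ℕ → ℝ}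
    {s : ℕ → ℕ → ℕ} {σ : ℕ → ℕ} {θ : ℕ → ℕ → ℝ} (hT : Tree N p s σ θ) (t m : ℕ) (hm : 1 ≤ m)
    (hmN : m ≤ N t) (a : ℕ → ℝ) (j : ℕ) (hj : j < N t) :
    sp N σ θ (nn N t + (m - 1)) (t + 1) a (ix (nn N t) (us t) j) =
      p t j / cls (N t) (s t) m (p t) j * a (ix (nn N t) (us t) (anc (s t) m j)) := by
  obtain ⟨h1, h2, h3, h4, h5, h6, h7⟩ := hN N hT.two
  obtain ⟨l1, l2⟩ := loc hA hN N p s σ θ hT t m hm hmN
  have hpos := (trf hN N p s σ θ hT).2.1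
  have hu := hpos t (us t) (h1 t)
  unfold sp ms
  rw [l2 j hj, cl_block_new hA hN hT t m hm hmN, hT.th1 t j hj]
  have e : cls (N t) (s t) m (fun j => θ (t + 1) (ix (nn N t) (us t) j)) j =
      cls (N t) (s t) m (p t) j * θ t (us t) := by
    rw [← cls_smul]
    unfold cls
    apply sum_congr rfl
    intro k hk
    rw [mem_filter, mem_range] at hk
    exact hT.th1 t k hk.1
  rw [e, mul_div_mul_right _ _ hu.ne']

/-- INS -/
theorem ins (hA : AncStmt) (hN : NnbStmt) : InsStmt := by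
  intro X Z _ _ _ _ Ψ N p s σ θ L y C M hT hV t m b hm hmN
  have key := (hV.step t).inn (∑ i ∈ (range (nn N t)).erase (us t), b i • L t i)
    (mem_Bs Ψ (L t) (nn N t) (us t) _ b) (fun j => b (ix (nn N t) (us t) j)) m hm hmN
  rw [J_split hN hT.two, J_split hN hT.two]
  have e1 : ∀ a : ℕ → ℝ, ∑ i ∈ (range (nn N t)).erase (us t), a i • L (t + 1) i =
      ∑ i ∈ (range (nn N t)).erase (us t), a i • L t i := by
    intro a
    apply sum_congr rfl
    intro i hi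
    rw [mem_erase, mem_range] at hi
    rw [hV.keep t i hi.2 hi.1]
  rw [e1, e1]
  have e2 : ∑ i ∈ (range (nn N t)).erase (us t),
      (sp N σ θ (nn N t + (m - 1)) (t + 1) (cl N σ (nn N t + (m - 1)) (t + 1) b) i) • L t i =
      ∑ i ∈ (range (nn N t)).erase (us t), b i • L t i := by
    apply sum_congr rfl
    intro i hi
    rw [mem_erase, mem_range] at hi
    rw [sp_block_old hA hN hT t m hm hmN.le _ i hi.2 hi.1,
      cl_block_old hA hN hT t m hm hmN.le _ i hi.2 hi.1]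
  have e3 : ∑ j ∈ range (N t), (sp N σ θ (nn N t + (m - 1)) (t + 1)
      (cl N σ (nn N t + (m - 1)) (t + 1) b) (ix (nn N t) (us t) j)) •
        L (t + 1) (ix (nn N t) (us t) j) =
      ∑ j ∈ range (N t), Qs (N t) (p t) (s t) m (fun j => b (ix (nn N t) (us t) j)) j •
        L (t + 1) (ix (nn N t) (us t) j) := by
    apply sum_congr rfl
    intro j hj
    rw [sp_block_new hA hN hT t m hm hmN.le _ j (mem_range.1 hj),
      cl_block_new hA hN hT t m hm hmN.le]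
    rfl
  rw [e2, e3]
  exact key

end Pool.Agent.NE.H53
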